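import Pool.Agent.H365.TF.Stm

/-!
# Residual finiteness of the triangular group over matrices over the group ring
-/

set_option autoImplicit false

namespace Pool.Agent.H365.TF

namespace RFTaux

/-- residually finite rings -/
def RFR (S : Type) [Ring S] : Prop :=
  ∀ x : S, x ≠ 0 → ∃ (R : Type) (_ : Ring R) (f : S →+* R), Finite R ∧ f x ≠ 0

theorem RFR.matrix {S : Type} [Ring S] (h : RFR S) : RFR (Matrix (Fin 3) (Fin 3) S) := by
  intro x hx
  have h1 : ∃ i j, x i j ≠ 0 := by
    by_contra hcon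
    push Not at hcon
    exact hx (Matrix.ext fun i j => hcon i j)
  obtain ⟨i, j, hij⟩ := h1
  obtain ⟨R, _, f, hR, hf⟩ := h _ hij
  refine ⟨Matrix (Fin 3) (Fin 3) R, inferInstance, f.mapMatrix, inferInstance, fun h0 => hf ?_⟩
  have h2 := congrFun (congrFun h0 i) j
  rwa [RingHom.mapMatrix_apply, Matrix.map_apply, Matrix.zero_apply] at h2

/-- functoriality of the triangular groups -/
def triMap {S S' : Type} [Ring S] [Ring S'] (f : S →+* S') : Tri S →* Tri S' where
  toFun u := ⟨Units.map f.toMonoidHom u.g, f u.x, Units.map f.toMonoidHom u.h⟩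
  map_one' := by
    refine Tri.ext ?_ ?_ ?_
    · exact map_one _
    · exact map_zero f
    · exact map_one _
  map_mul' u v := by
    refine Tri.ext ?_ ?_ ?_
    · exact map_mul (Units.map f.toMonoidHom) u.g v.g
    · show f ((u.g : S) * v.x + u.x * (v.h : S)) = f (u.g : S) * f v.x + f u.x * f (v.h : S)
      rw [map_add, map_mul, map_mul]
    · exact map_mul (Units.map f.toMonoidHom) u.h v.h

theorem tri_finite (S : Type) [Ring S] [Finite S] : Finite (Tri S) := by
  refine Finite.of_injective (fun u : Tri S => ((u.g, u.x, u.h) : Sˣ × S × Sˣ)) fun u v h => ?_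
  have h1 := congrArg Prod.fst h
  have h2 := congrArg (fun z => z.2.1) h
  have h3 := congrArg (fun z => z.2.2) h
  exact Tri.ext h1 h2 h3

theorem rf_tri {S : Type} [Ring S] (h : RFR S) : Pool.Agent.H365.IsRF (Tri S) := by
  intro u hu
  have key : ∀ y : S, y ≠ 0 → (∀ (R : Type) (_ : Ring R) (f : S →+* R), triMap f u = 1 → f y = 0) →
      ∃ N : Subgroup (Tri S), N.Normal ∧ N.FiniteIndex ∧ u ∉ N := by
    intro y hy hf
    obtain ⟨R, _, f, hR, hfy⟩ := h y hy
    have : Finite (Tri R) := tri_finite R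
    refine ⟨(triMap f).ker, inferInstance, inferInstance, fun hmem => hfy ?_⟩
    exact hf R _ f hmem
  by_cases hg : (u.g : S) - 1 = 0
  · by_cases hh : (u.h : S) - 1 = 0
    · by_cases hx : u.x = 0
      · exact absurd (Tri.ext (Units.ext (sub_eq_zero.1 hg)) hx (Units.ext (sub_eq_zero.1 hh))) hu
      · refine key _ hx fun R _ f hf => ?_
        exact congrArg (fun z => z.x) hf
    · refine key _ hh fun R _ f hf => ?_
      have h1 : f (u.h : S) = 1 := congrArg (fun z => ((z.h : Rˣ) : R)) hf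
      rw [map_sub, h1, map_one, sub_self]
  · refine key _ hg fun R _ f hf => ?_
    have h1 : f (u.g : S) = 1 := congrArg (fun z => ((z.g : Rˣ) : R)) hf
    rw [map_sub, h1, map_one, sub_self]

open Classical in
theorem rfr_ring {H : Type} [Group H] {N : Subgroup H} (hN : VRes 5 H N) :
    RFR (MonoidAlgebra ℤ H) := by
  intro x hx
  obtain ⟨-, -, hS⟩ := hN
  obtain ⟨h0, hh0⟩ : ∃ h0 : H, x.coeff h0 ≠ 0 := by
    by_contra hcon
    push Not at hcon
    exact hx (MonoidAlgebra.coeff_injective (Finsupp.ext hcon))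
  obtain ⟨M, hM, hfin, -, -, hsep⟩ := hS ((x.coeff.support.filter (fun h => h ≠ h0)).image
    (fun h => h0⁻¹ * h)) (by
      intro h1
      obtain ⟨h, h2, h3⟩ := Finset.mem_image.1 h1
      exact (Finset.mem_filter.1 h2).2 (inv_mul_eq_one.1 h3).symm)
  have hinj : ∀ h ∈ x.coeff.support, ((h : H) : H ⧸ M) = ((h0 : H) : H ⧸ M) → h = h0 := by
    intro h h1 h2
    by_contra hne
    refine hsep (h0⁻¹ * h) (Finset.mem_image.2 ⟨h, Finset.mem_filter.2 ⟨h1, hne⟩, rfl⟩) ?_
    exact QuotientGroup.eq.1 h2.symm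
  set m : ℕ := (x.coeff h0).natAbs + 1 with hm
  have : NeZero m := ⟨by omega⟩
  have : Finite (H ⧸ M) := inferInstance
  have hc : ((x.coeff h0 : ℤ) : ZMod m) ≠ 0 := by
    intro h1
    rw [ZMod.intCast_zmod_eq_zero_iff_dvd] at h1
    have h2 := Int.natAbs_dvd_natAbs.2 h1
    rw [Int.natAbs_natCast] at h2
    have h3 := Nat.le_of_dvd (Int.natAbs_pos.2 hh0) h2
    omega
  refine ⟨MonoidAlgebra (ZMod m) (H ⧸ M), inferInstance, red m M, ?_, fun h1 => hc ?_⟩
  · exact Finite.of_injective (fun (y : MonoidAlgebra (ZMod m) (H ⧸ M)) (q : H ⧸ M) => y.coeff q)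
      (DFunLike.coe_injective.comp MonoidAlgebra.coeff_injective)
  · have h2 : (red m M x).coeff = Finsupp.mapDomain (fun h : H => (h : H ⧸ M))
        (x.coeff.mapRange (Int.castRingHom (ZMod m)) (map_zero _)) := rfl
    have h3 : (red m M x).coeff ((h0 : H) : H ⧸ M) = 0 := by
      rw [h1]
      rfl
    rw [h2, Finsupp.mapDomain, Finsupp.sum_apply, Finsupp.sum,
      Finset.sum_eq_single h0] at h3
    · rw [Finsupp.single_eq_same, Finsupp.mapRange_apply] at h3
      exact h3
    · intro h h4 h5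
      rw [Finsupp.single_eq_of_ne]
      intro h6
      exact h5 (hinj h (Finsupp.support_mapRange h4) h6.symm)
    · intro h4
      rw [Finsupp.notMem_support_iff.1 h4, Finsupp.single_zero, Finsupp.zero_apply]

end RFTaux

open RFTaux in
theorem t_RFT : S_RFT := by
  intro H _ hN
  obtain ⟨N, hN⟩ := hN
  exact rf_tri (rfr_ring hN).matrix.matrix

end Pool.Agent.H365.TF
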